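import Pool.Agent.Helper717.Hull2

set_option autoImplicit false

namespace Pool.Agent.Results.MP_5a5b3b_co.SquarePairs

open Set MeasureTheory

/-- The Euclidean plane. -/
abbrev Plane := EuclideanSpace ℝ (Fin 2)

/-- A tiling of the plane: a countable family of closed sets which cover the plane and have
pairwise disjoint interiors. -/
def IsTiling (𝒯 : Set (Set Plane)) : Prop :=
  𝒯.Countable ∧ (∀ T ∈ 𝒯, IsClosed T) ∧ ⋃₀ 𝒯 = univ ∧
    ∀ S ∈ 𝒯, ∀ T ∈ 𝒯, S ≠ T → Disjoint (interior S) (interior T)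

/-- The isometry `g` permutes the tiles of `𝒯`. -/
def IsSymmetry (g : Plane ≃ᵢ Plane) (𝒯 : Set (Set Plane)) : Prop :=
  (fun T => g '' T) '' 𝒯 = 𝒯

/-- `𝒯` is an isohedral tiling: its symmetry group acts transitively on the tiles. -/
def IsIsohedral (𝒯 : Set (Set Plane)) : Prop :=
  IsTiling 𝒯 ∧ ∀ S ∈ 𝒯, ∀ T ∈ 𝒯, ∃ g : Plane ≃ᵢ Plane, IsSymmetry g 𝒯 ∧ g '' S = T

/-- Congruent sets. -/
def Congruent (S T : Set Plane) : Prop := ∃ g : Plane ≃ᵢ Plane, g '' S = T

/-- A closed topological disk. -/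
def IsDisk (T : Set Plane) : Prop := Nonempty (T ≃ₜ Metric.closedBall (0 : Plane) 1)

/-- `P` is the prototile of an isohedral tiling: some isohedral tiling has all its tiles
congruent to `P`. -/
def IsIsohedralPrototile (P : Set Plane) : Prop :=
  ∃ 𝒮 : Set (Set Plane), IsIsohedral 𝒮 ∧ ∀ S ∈ 𝒮, Congruent P S

/-! ### Squares -/

/-- The unit square with lower left corner `(a, b)`. -/
def sq (a b : ℝ) : Set Plane := {p | a ≤ p 0 ∧ p 0 ≤ a + 1 ∧ b ≤ p 1 ∧ p 1 ≤ b + 1}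

theorem cont (i : Fin 2) : Continuous fun p : Plane => p i := by fun_prop

theorem sq_closed (a b : ℝ) : IsClosed (sq a b) := by
  have h0 := cont 0
  have h1 := cont 1
  exact (isClosed_le continuous_const h0).inter ((isClosed_le h0 continuous_const).inter
    ((isClosed_le continuous_const h1).inter (isClosed_le h1 continuous_const)))

theorem image_sq (c d a b : ℝ) :
    (IsometryEquiv.addRight (!₂[c, d] : Plane)) '' sq a b = sq (a + c) (b + d) := by
  ext p
  constructor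
  · rintro ⟨q, ⟨h1, h2, h3, h4⟩, rfl⟩
    refine ⟨?_, ?_, ?_, ?_⟩ <;> simp <;> linarith
  · rintro ⟨h1, h2, h3, h4⟩
    refine ⟨p - !₂[c, d], ⟨?_, ?_, ?_, ?_⟩, by simp⟩ <;> simp <;> linarith

/-- Exchange of the two coordinates. -/
noncomputable def sw : Plane ≃ᵢ Plane :=
  (LinearIsometryEquiv.piLpCongrLeft 2 ℝ ℝ (Equiv.swap (0 : Fin 2) 1)).toIsometryEquiv

theorem sw0 (p : Plane) : sw p 0 = p 1 := by
  simp [sw, LinearIsometryEquiv.piLpCongrLeft_apply, Equiv.piCongrLeft'_apply]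

theorem sw1 (p : Plane) : sw p 1 = p 0 := by
  simp [sw, LinearIsometryEquiv.piLpCongrLeft_apply, Equiv.piCongrLeft'_apply]

theorem image_sw (a b : ℝ) : sw '' sq a b = sq b a := by
  ext p
  constructor
  · rintro ⟨q, ⟨h1, h2, h3, h4⟩, rfl⟩
    refine ⟨?_, ?_, ?_, ?_⟩ <;> simp only [sw0, sw1] <;> assumption
  · rintro ⟨h1, h2, h3, h4⟩
    refine ⟨sw p, ⟨?_, ?_, ?_, ?_⟩, ?_⟩
    · rw [sw0]; exact h3
    · rw [sw0]; exact h4
    · rw [sw1]; exact h1
    · rw [sw1]; exact h2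
    · ext i
      fin_cases i
      · simp only [Fin.zero_eta]; rw [sw0, sw1]
      · simp only [Fin.mk_one]; rw [sw1, sw0]

theorem cover (s : ℝ) (p : Plane) : ∃ a b : ℤ, p ∈ sq (a + s * b) b := by
  refine ⟨⌊p 0 - s * ⌊p 1⌋⌋, ⌊p 1⌋, ?_⟩
  have h1 := Int.floor_le (p 0 - s * ⌊p 1⌋)
  have h2 := (Int.lt_floor_add_one (p 0 - s * ⌊p 1⌋)).le
  have h3 := Int.floor_le (p 1)
  have h4 := (Int.lt_floor_add_one (p 1)).le
  exact ⟨by linarith, by linarith, h3, h4⟩

/-- The grid lines. -/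
def N (s : ℝ) : Set Plane := {p | (∃ n : ℤ, p 1 = n) ∨ ∃ a b : ℤ, p 0 = a + s * b}

theorem line0 (c : ℝ) : volume {p : Plane | p 0 = c} = 0 := by
  have h := Pool.Agent.Helper717.Hull1.line_null (!₂[c, 0]) (!₂[c, 1]) (by
    intro h
    have := congrArg (fun q : Plane => q 1) h
    simp at this)
  refine measure_mono_null ?_ h
  intro q hq
  have hq' : q 0 = c := hq
  simp [Pool.Agent.Helper717.Hull1.orient, hq']

theorem line1 (c : ℝ) : volume {p : Plane | p 1 = c} = 0 := by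
  have h := Pool.Agent.Helper717.Hull1.line_null (!₂[0, c]) (!₂[1, c]) (by
    intro h
    have := congrArg (fun q : Plane => q 0) h
    simp at this)
  refine measure_mono_null ?_ h
  intro q hq
  have hq' : q 1 = c := hq
  simp [Pool.Agent.Helper717.Hull1.orient, hq']

theorem null (s : ℝ) : volume (N s) = 0 := by
  have : N s ⊆ (⋃ n : ℤ, {p : Plane | p 1 = n}) ∪
      ⋃ a : ℤ, ⋃ b : ℤ, {p : Plane | p 0 = a + s * b} := by
    rintro p (⟨n, hn⟩ | ⟨a, b, h⟩)
    · exact Or.inl (mem_iUnion.2 ⟨n, hn⟩)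
    · exact Or.inr (mem_iUnion.2 ⟨a, mem_iUnion.2 ⟨b, h⟩⟩)
  refine measure_mono_null this (measure_union_null (measure_iUnion_null fun n => line1 n)
    (measure_iUnion_null fun a => measure_iUnion_null fun b => line0 _))

theorem inter (s : ℝ) (a b a' b' : ℤ) (h : ¬ (a = a' ∧ b = b')) :
    sq (a + s * b) b ∩ sq (a' + s * b') b' ⊆ N s := by
  rintro p ⟨⟨h1, h2, h3, h4⟩, ⟨h5, h6, h7, h8⟩⟩
  rcases lt_trichotomy b b' with hb | rfl | hb
  · left
    refine ⟨b', le_antisymm ?_ h7⟩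
    have : (b : ℝ) + 1 ≤ b' := by exact_mod_cast hb
    linarith
  · right
    have ha : a ≠ a' := fun h' => h ⟨h', rfl⟩
    rcases lt_or_gt_of_ne ha with ha | ha
    · refine ⟨a', b, le_antisymm ?_ h5⟩
      have : (a : ℝ) + 1 ≤ a' := by exact_mod_cast ha
      linarith
    · refine ⟨a, b, le_antisymm ?_ h1⟩
      have : (a' : ℝ) + 1 ≤ a := by exact_mod_cast ha
      linarith
  · left
    refine ⟨b, le_antisymm ?_ h3⟩
    have : (b' : ℝ) + 1 ≤ b := by exact_mod_cast hb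
    linarith

theorem disj (s : ℝ) (A B : Set Plane) (h : A ∩ B ⊆ N s) : Disjoint (interior A) (interior B) := by
  rw [disjoint_iff_inter_eq_empty, ← interior_inter]
  exact isOpen_interior.eq_empty_of_measure_zero
    (measure_mono_null (interior_subset.trans h) (null s))

/-! ### The square tiling -/

/-- The square tiling. -/
def squares : Set (Set Plane) := range fun k : ℤ × ℤ => sq k.1 k.2

theorem squares_tiling : IsTiling squares := by
  refine ⟨countable_range _, ?_, ?_, ?_⟩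
  · rintro _ ⟨k, rfl⟩
    exact sq_closed _ _
  · rw [eq_univ_iff_forall]
    intro p
    obtain ⟨a, b, h⟩ := cover 0 p
    refine mem_sUnion.2 ⟨_, ⟨(a, b), rfl⟩, ?_⟩
    simpa using h
  · rintro _ ⟨k, rfl⟩ _ ⟨l, rfl⟩ hne
    apply disj 0
    have := inter 0 k.1 k.2 l.1 l.2 (by
      rintro ⟨h1, h2⟩
      apply hne
      simp only [h1, h2])
    simpa using this

theorem squares_isohedral : IsIsohedral squares := by
  refine ⟨squares_tiling, ?_⟩
  rintro _ ⟨k, rfl⟩ _ ⟨l, rfl⟩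
  refine ⟨IsometryEquiv.addRight (!₂[(l.1 : ℝ) - k.1, (l.2 : ℝ) - k.2] : Plane), ?_, ?_⟩
  · ext T
    constructor
    · rintro ⟨_, ⟨m, rfl⟩, rfl⟩
      refine ⟨(m.1 + (l.1 - k.1), m.2 + (l.2 - k.2)), ?_⟩
      simp only [image_sq]
      push_cast
      rfl
    · rintro ⟨m, rfl⟩
      refine ⟨_, ⟨(m.1 - (l.1 - k.1), m.2 - (l.2 - k.2)), rfl⟩, ?_⟩
      simp only [image_sq]
      push_cast
      congr 1 <;> ring
  · simp only [image_sq]
    congr 1 <;> ring

theorem sq_disk (a b : ℝ) : IsDisk (sq a b) := by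
  have hconv : Convex ℝ (sq a b) := by
    rintro p ⟨h1, h2, h3, h4⟩ q ⟨h5, h6, h7, h8⟩ x y hx hy hxy
    have hx' : x = 1 - y := by linarith
    subst hx'
    refine ⟨?_, ?_, ?_, ?_⟩ <;> simp only [PiLp.add_apply, PiLp.smul_apply, smul_eq_mul] <;>
      nlinarith
  have hint : (interior (sq a b)).Nonempty := by
    have hopen : IsOpen {p : Plane | a < p 0 ∧ p 0 < a + 1 ∧ b < p 1 ∧ p 1 < b + 1} := by
      have h0 := cont 0
      have h1 := cont 1
      exact (isOpen_lt continuous_const h0).inter ((isOpen_lt h0 continuous_const).inter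
        ((isOpen_lt continuous_const h1).inter (isOpen_lt h1 continuous_const)))
    refine ⟨!₂[a + 1 / 2, b + 1 / 2], interior_maximal ?_ hopen ?_⟩
    · rintro p ⟨h1, h2, h3, h4⟩
      exact ⟨h1.le, h2.le, h3.le, h4.le⟩
    · refine ⟨?_, ?_, ?_, ?_⟩ <;> simp <;> norm_num
  have hbdd : Bornology.IsBounded (sq a b) := by
    rw [Metric.isBounded_iff_subset_closedBall (!₂[a, b] : Plane)]
    refine ⟨2, ?_⟩
    rintro p ⟨h1, h2, h3, h4⟩
    rw [Metric.mem_closedBall, EuclideanSpace.dist_eq, Fin.sum_univ_two]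
    apply Real.sqrt_le_iff.2
    refine ⟨by norm_num, ?_⟩
    simp only [Real.dist_eq, sq_abs, Matrix.cons_val_zero, Matrix.cons_val_one]
    nlinarith
  obtain ⟨h, -, h2, -⟩ := exists_homeomorph_image_interior_closure_frontier_eq_unitBall
    hconv hint hbdd
  rw [(sq_closed a b).closure_eq] at h2
  exact ⟨(h.image (sq a b)).trans (Homeomorph.setCongr h2)⟩

/-! ### The sheared tilings -/

/-- The union of the squares at `(0, 0)` and at `(x, y)`, translated by `(2 k + s l, l)`. -/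
def P (s : ℝ) (x y : ℤ) (k : ℤ × ℤ) : Set Plane :=
  sq (2 * k.1 + s * k.2) k.2 ∪ sq (2 * k.1 + s * k.2 + x) (k.2 + y)

theorem image_P (s : ℝ) (x y : ℤ) (k m : ℤ × ℤ) :
    (IsometryEquiv.addRight (!₂[(2 * m.1 + s * m.2 : ℝ), (m.2 : ℝ)] : Plane)) '' P s x y k =
      P s x y (k + m) := by
  unfold P
  rw [image_union, image_sq, image_sq]
  simp only [Prod.fst_add, Prod.snd_add]
  push_cast
  congr 2 <;> ring

theorem pair_aux (x y : ℤ) (hy : y ≠ 0) : IsIsohedralPrototile (sq 0 0 ∪ sq x y) := by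
  have hy' : (y : ℝ) ≠ 0 := by exact_mod_cast hy
  obtain ⟨s, hs⟩ : ∃ s : ℝ, s * y = x - 1 := ⟨(x - 1) / y, by field_simp⟩
  have hPe : ∀ k : ℤ × ℤ, P s x y k = sq ((2 * k.1 : ℤ) + s * (k.2 : ℤ)) (k.2 : ℤ) ∪
      sq ((2 * k.1 + 1 : ℤ) + s * ((k.2 + y : ℤ) : ℝ)) ((k.2 + y : ℤ) : ℝ) := by
    intro k
    unfold P
    push_cast
    have : (2 * (k.1 : ℝ) + s * k.2 + x) = 2 * k.1 + 1 + s * (k.2 + y) := by
      linear_combination -hs
    rw [this]
  refine ⟨range (P s x y), ⟨⟨countable_range _, ?_, ?_, ?_⟩, ?_⟩, ?_⟩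
  · rintro _ ⟨k, rfl⟩
    exact (sq_closed _ _).union (sq_closed _ _)
  · rw [eq_univ_iff_forall]
    intro p
    obtain ⟨a, b, h⟩ := cover s p
    rcases Int.even_or_odd' a with ⟨c, rfl | rfl⟩
    · refine mem_sUnion.2 ⟨_, ⟨(c, b), rfl⟩, ?_⟩
      rw [hPe]
      exact Or.inl h
    · refine mem_sUnion.2 ⟨_, ⟨(c, b - y), rfl⟩, ?_⟩
      rw [hPe]
      right
      simpa using h
  · rintro _ ⟨k, rfl⟩ _ ⟨l, rfl⟩ hne
    have hkl : ¬ (k.1 = l.1 ∧ k.2 = l.2) := by
      rintro ⟨h1, h2⟩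
      exact hne (by rw [Prod.ext h1 h2])
    apply disj s
    rw [hPe, hPe]
    rintro p ⟨h1 | h1, h2 | h2⟩
    · exact inter s _ _ _ _ (by omega) ⟨h1, h2⟩
    · exact inter s _ _ _ _ (by omega) ⟨h1, h2⟩
    · exact inter s _ _ _ _ (by omega) ⟨h1, h2⟩
    · exact inter s _ _ _ _ (by omega) ⟨h1, h2⟩
  · rintro _ ⟨k, rfl⟩ _ ⟨l, rfl⟩
    refine ⟨IsometryEquiv.addRight
      (!₂[(2 * (l - k).1 + s * (l - k).2 : ℝ), ((l - k).2 : ℝ)] : Plane), ?_, ?_⟩
    · ext T
      constructor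
      · rintro ⟨_, ⟨m, rfl⟩, rfl⟩
        exact ⟨m + (l - k), (image_P s x y m (l - k)).symm⟩
      · rintro ⟨m, rfl⟩
        refine ⟨_, ⟨m - (l - k), rfl⟩, ?_⟩
        have := image_P s x y (m - (l - k)) (l - k)
        rw [sub_add_cancel] at this
        exact this
    · have := image_P s x y k (l - k)
      rw [add_sub_cancel] at this
      exact this
  · rintro _ ⟨k, rfl⟩
    refine ⟨IsometryEquiv.addRight (!₂[(2 * k.1 + s * k.2 : ℝ), (k.2 : ℝ)] : Plane), ?_⟩
    have h0 : sq 0 0 ∪ sq x y = P s x y 0 := by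
      unfold P
      simp
    rw [h0, image_P, zero_add]

theorem Congruent.trans {A B C : Set Plane} (h1 : Congruent A B) (h2 : Congruent B C) :
    Congruent A C := by
  obtain ⟨g, rfl⟩ := h1
  obtain ⟨h, rfl⟩ := h2
  exact ⟨g.trans h, by rw [← image_comp]; rfl⟩

theorem proto_congr {A B : Set Plane} (h : Congruent A B) (hB : IsIsohedralPrototile B) :
    IsIsohedralPrototile A := by
  obtain ⟨𝒮, h1, h2⟩ := hB
  exact ⟨𝒮, h1, fun S hS => h.trans (h2 S hS)⟩

/-- The square tiling has the property: there is an isohedral tiling of the plane by closed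
topological disks such that the union of any two disjoint tiles is the prototile of some isohedral
tiling. -/
theorem result : ∃ 𝒯 : Set (Set Plane), IsIsohedral 𝒯 ∧ (∀ T ∈ 𝒯, IsDisk T) ∧
    ∀ T₁ ∈ 𝒯, ∀ T₂ ∈ 𝒯, Disjoint T₁ T₂ → IsIsohedralPrototile (T₁ ∪ T₂) := by
  refine ⟨squares, squares_isohedral, ?_, ?_⟩
  · rintro _ ⟨k, rfl⟩
    exact sq_disk _ _
  · rintro _ ⟨k, rfl⟩ _ ⟨l, rfl⟩ hd
    by_cases hy : l.2 - k.2 = 0
    · have hx : l.1 - k.1 ≠ 0 := by
        intro hx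
        have h1 : l.1 = k.1 := by omega
        have h2 : l.2 = k.2 := by omega
        simp only [h1, h2] at hd
        have hm : (!₂[(k.1 : ℝ), (k.2 : ℝ)] : Plane) ∈ sq k.1 k.2 := by
          refine ⟨?_, ?_, ?_, ?_⟩ <;> simp
        exact disjoint_left.1 hd hm hm
      refine proto_congr ?_ (pair_aux 0 (l.1 - k.1) hx)
      refine Congruent.trans ⟨IsometryEquiv.addRight (!₂[-(k.1 : ℝ), -(k.2 : ℝ)] : Plane), rfl⟩
        ⟨sw, ?_⟩
      rw [image_union, image_sq, image_sq, image_union, image_sw, image_sw]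
      have h2 : (l.2 : ℝ) = k.2 := by
        have : l.2 = k.2 := by omega
        exact_mod_cast this
      push_cast
      rw [h2]
      congr 2 <;> ring
    · refine proto_congr ⟨IsometryEquiv.addRight (!₂[-(k.1 : ℝ), -(k.2 : ℝ)] : Plane), ?_⟩
        (pair_aux (l.1 - k.1) (l.2 - k.2) hy)
      rw [image_union, image_sq, image_sq]
      push_cast
      congr 2 <;> ring

end Pool.Agent.Results.MP_5a5b3b_co.SquarePairs
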